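import Pool.Agent.H86.Eng.Defs

/-!
# The thick sandwich theorem, module 1: from the 3-Engel identity to the relations `Lvl`
-/

namespace Eng

section
variable {A : Type*} [NonUnitalNonAssocRing A]

theorem anti_of_sq (sq : ∀ x : A, x * x = 0) (x y : A) : x * y = - (y * x) := by
  have h := sq (x + y)
  rw [mul_add, add_mul, add_mul, sq x, sq y, zero_add, add_zero] at h
  rw [eq_neg_iff_add_eq_zero, add_comm]
  exact h

/-- the full linearisation of the 3-Engel identity -/
theorem eng_lin (eng : ∀ x y : A, ((x * y) * y) * y = 0) (x a b c : A) :
    ((x * a) * b) * c + ((x * a) * c) * b + ((x * b) * a) * c + ((x * b) * c) * a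
      + ((x * c) * a) * b + ((x * c) * b) * a = 0 := by
  have h1 := eng x (a + b + c)
  have h2 := eng x (a + b)
  have h3 := eng x (a + c)
  have h4 := eng x (b + c)
  have h5 := eng x a
  have h6 := eng x b
  have h7 := eng x c
  simp only [mul_add, add_mul] at h1 h2 h3 h4
  linear_combination (norm := abel) h1 - h2 - h3 - h4 + h5 + h6 + h7

theorem lw_append (e : A) (L R : List A) : lw e (L ++ R) = lw (lw e L) R := by
  simp [lw, List.foldl_append]

@[simp] theorem lw_nil (e : A) : lw e [] = e := rfl

@[simp] theorem lw_cons (e x : A) (L : List A) : lw e (x :: L) = lw (e * x) L := rfl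

theorem lw_snoc (e x : A) (L : List A) : lw e (L ++ [x]) = lw e L * x := by
  simp [lw_append]

theorem lw_add (a b : A) (L : List A) : lw (a + b) L = lw a L + lw b L := by
  induction L generalizing a b with
  | nil => rfl
  | cons x L ih => simp [add_mul, ih]

theorem lw_neg (a : A) (L : List A) : lw (-a) L = - lw a L := by
  induction L generalizing a with
  | nil => rfl
  | cons x L ih => simp [neg_mul, ih]

theorem lw_zero (L : List A) : lw (0 : A) L = 0 := by
  induction L with
  | nil => rfl
  | cons x L ih => simp [ih]

/-- chains are alternating in their non-first letters up to shorter chains -/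
theorem chain_alt (sq : ∀ x : A, x * x = 0) (eng : ∀ x y : A, ((x * y) * y) * y = 0)
    (c : A) (L R : List A) (x y : A) (hL : L ≠ []) :
    ∃ Q₁ Q₂ Q₃ Q₄ : List A, Q₁.length < L.length + 2 + R.length ∧
      Q₂.length < L.length + 2 + R.length ∧ Q₃.length < L.length + 2 + R.length ∧
      Q₄.length < L.length + 2 + R.length ∧
      lw c (L ++ [x, y] ++ R) + lw c (L ++ [y, x] ++ R)
        = -(lw c Q₁ + lw c Q₂ + lw c Q₃ + lw c Q₄) := by
  obtain ⟨L0, p, rfl⟩ : ∃ L0 p, L = L0 ++ [p] :=
    ⟨L.dropLast, L.getLast hL, (List.dropLast_append_getLast hL).symm⟩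
  refine ⟨L0 ++ [p * x, y] ++ R, L0 ++ [(p * x) * y] ++ R, L0 ++ [p * y, x] ++ R,
    L0 ++ [(p * y) * x] ++ R, ?_, ?_, ?_, ?_, ?_⟩
  · simp; omega
  · simp; omega
  · simp; omega
  · simp; omega
  have h := eng_lin eng p (lw c L0) x y
  rw [anti_of_sq sq p (lw c L0), anti_of_sq sq (p * x) (lw c L0),
    anti_of_sq sq (p * y) (lw c L0), anti_of_sq sq ((p * x) * y) (lw c L0),
    anti_of_sq sq ((p * y) * x) (lw c L0)] at h
  simp only [lw_append, lw_cons, lw_nil, List.append_assoc]
  rw [← lw_add, ← lw_add, ← lw_add, ← lw_add, ← lw_neg]
  congr 1
  simp only [neg_mul] at h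
  linear_combination (norm := abel) -h

section level
variable (sq : ∀ x : A, x * x = 0) (eng : ∀ x y : A, ((x * y) * y) * y = 0)
  (c : A) (M : ℕ)
  (IH : ∀ U V P W : List A, U.length + V.length + P.length + W.length < M →
      (lw (lw c U * lw c V) P) * lw c W = 0)
include sq eng IH

omit sq in
/-- (T3b) -/
theorem lev_T3b (U V P W : List A) (x y : A)
    (h : U.length + V.length + P.length + W.length + 2 ≤ M) :
    (lw (lw c U * lw c V) P * x * y) * lw c W
      = - ((lw (lw c U * lw c V) P * y * x) * lw c W) := by
  have e := eng_lin eng (lw (lw c U * lw c V) P) (lw c W) x y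
  have e0 := IH U V P W (by omega)
  have e1 := IH U V (P ++ [x]) W (by simp; omega)
  have e2 := IH U V (P ++ [y]) W (by simp; omega)
  rw [lw_snoc] at e1 e2
  rw [e0, e1, e2] at e
  simp only [zero_mul, add_zero, zero_add] at e
  rw [eq_neg_iff_add_eq_zero]
  exact e

/-- (T3c) -/
theorem lev_T3c (U V P W : List A) (x y : A)
    (h : U.length + V.length + P.length + W.length + 2 ≤ M) :
    lw (lw c U * lw c V) P * (lw c W * x * y)
      = - (lw (lw c U * lw c V) P * (lw c W * y * x)) := by
  set r := lw (lw c U * lw c V) P with hr
  have e := eng_lin eng (lw c W) r x y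
  have e0 := IH U V P W (by omega)
  have e1 := IH U V P (W ++ [x]) (by simp; omega)
  have e2 := IH U V P (W ++ [y]) (by simp; omega)
  rw [lw_snoc, ← hr] at e1 e2
  rw [← hr] at e0
  rw [anti_of_sq sq (lw c W) r, anti_of_sq sq (lw c W * x) r, anti_of_sq sq (lw c W * y) r,
    e0, e1, e2, anti_of_sq sq (lw c W * x * y) r, anti_of_sq sq (lw c W * y * x) r] at e
  simp only [zero_mul, add_zero, zero_add, neg_zero] at e
  rw [eq_neg_iff_add_eq_zero]
  linear_combination (norm := abel) -e

/-- (T3a): moving a pair of letters -/
theorem lev_T3a (U V P W : List A) (x y : A)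
    (h : U.length + V.length + P.length + W.length + 2 ≤ M) :
    (lw (lw c U * lw c V) P * x * y) * lw c W
      = lw (lw c U * lw c V) P * (lw c W * x * y) := by
  set r := lw (lw c U * lw c V) P with hr
  have e := eng_lin eng x (lw c W) r y
  have e1 := IH U V P (W ++ [x]) (by simp; omega)
  have e2 := IH U V (P ++ [x]) W (by simp; omega)
  have e3 := IH U V P (W ++ [x * y]) (by simp; omega)
  have e4 := IH U V (P ++ [x * y]) W (by simp; omega)
  rw [lw_snoc, ← hr] at e1 e2 e3 e4
  rw [anti_of_sq sq x (lw c W), anti_of_sq sq x r, neg_mul (lw c W * x) r,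
    anti_of_sq sq (lw c W * x) r, e1, neg_mul (r * x) (lw c W), e2,
    anti_of_sq sq (x * y) (lw c W), neg_mul (lw c W * (x * y)) r,
    anti_of_sq sq (lw c W * (x * y)) r, e3, anti_of_sq sq (x * y) r,
    neg_mul (r * (x * y)) (lw c W), e4] at e
  simp only [zero_mul, add_zero, zero_add, neg_zero, neg_mul] at e
  rw [anti_of_sq sq (lw c W * x * y) r] at e
  linear_combination (norm := abel) -e

end level

theorem swap_mul (sq : ∀ x : A, x * x = 0) (a b w : A) : (a * b) * w = -((b * a) * w) := by
  rw [anti_of_sq sq a b, neg_mul]

section star
variable (sq : ∀ x : A, x * x = 0) (eng : ∀ x y : A, ((x * y) * y) * y = 0)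
    (h2 : ∀ a : A, 2 • a = 0 → a = 0)
    (c : A) (sand : ∀ x : A, (x * c) * c = 0)
include sq eng h2 sand

omit sq in
theorem sand_mid (x z : A) : ((x * c) * z) * c = 0 := by
  have e := eng_lin eng x c c z
  have e1 := sand x
  have e2 := sand (x * z)
  rw [e1] at e
  simp only [zero_mul, zero_add, add_zero, e2] at e
  apply h2
  rw [two_nsmul]
  exact e

theorem small_zero (thick : ∀ x y : A, (x * c) * (y * c) = 0) (U V : List A)
    (h : U.length + V.length ≤ 2) : lw c U * lw c V = 0 := by
  match U, V with
  | [], [] => simp [sq]
  | [x], [] =>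
    simp only [lw_cons, lw_nil]
    rw [swap_mul sq, sand, neg_zero]
  | [], [x] =>
    simp only [lw_cons, lw_nil]
    rw [anti_of_sq sq c, swap_mul sq, sand, neg_zero, neg_zero]
  | [x], [y] =>
    simp only [lw_cons, lw_nil]
    rw [anti_of_sq sq c x, anti_of_sq sq c y, neg_mul_neg, thick]
  | [x, y], [] =>
    simp only [lw_cons, lw_nil]
    rw [anti_of_sq sq c x, neg_mul, neg_mul, sand_mid eng h2 c sand, neg_zero]
  | [], [x, y] =>
    simp only [lw_cons, lw_nil]
    rw [anti_of_sq sq c (c * x * y), anti_of_sq sq c x, neg_mul, neg_mul,
      sand_mid eng h2 c sand, neg_zero, neg_zero]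
  | (_ :: _ :: _ :: _), _ => simp only [List.length_cons] at h; omega
  | _, (_ :: _ :: _ :: _) => simp only [List.length_cons] at h; omega
  | (_ :: _ :: []), (_ :: _) => simp only [List.length_cons] at h; omega
  | (_ :: _), (_ :: _ :: _) => simp only [List.length_cons] at h; omega

end star

/-- MODULE 1 (algebra): if all products `(((c U)(c V)) P)(c W)` with fewer than `M` letters vanish,
then the functions `f`, `g` restricted to `M` letters satisfy the relations `Lvl`. -/
theorem lvl_of_engel (sq : ∀ x : A, x * x = 0) (eng : ∀ x y : A, ((x * y) * y) * y = 0)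
    (h2 : ∀ a : A, 2 • a = 0 → a = 0)
    (c : A) (sand : ∀ x : A, (x * c) * c = 0) (thick : ∀ x y : A, (x * c) * (y * c) = 0) (M : ℕ)
    (IH : ∀ U V P W : List A, U.length + V.length + P.length + W.length < M →
      (lw (lw c U * lw c V) P) * lw c W = 0) :
    Lvl (fun U V W : List A => if U.length + V.length + W.length = M then
        (lw c U * lw c V) * lw c W else 0)
      (fun U V W z => if U.length + V.length + W.length + 1 = M then
        ((lw c U * lw c V) * z) * lw c W else 0) := by
  have IH0 : ∀ U V W : List A, U.length + V.length + W.length < M →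
      (lw c U * lw c V) * lw c W = 0 := fun U V W h => by
    have := IH U V [] W (by simp; omega)
    simpa using this
  have IH1 : ∀ (U V W : List A) (z : A), U.length + V.length + W.length + 1 < M →
      ((lw c U * lw c V) * z) * lw c W = 0 := fun U V W z h => by
    have := IH U V [z] W (by simp; omega)
    simpa using this
  refine ⟨?_, ?_, ?_, ?_, ?_, ?_, ?_, ?_, ?_, ?_, ?_, ?_⟩
  · -- fanti
    intro U V W
    by_cases h : U.length + V.length + W.length = M
    · rw [if_pos h, if_pos (by omega)]
      exact swap_mul sq _ _ _
    · rw [if_neg h, if_neg (by omega), neg_zero]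
  · -- ganti
    intro U V W z
    by_cases h : U.length + V.length + W.length + 1 = M
    · rw [if_pos h, if_pos (by omega), anti_of_sq sq (lw c U), neg_mul, neg_mul]
    · rw [if_neg h, if_neg (by omega), neg_zero]
  · -- falt
    intro L R V W x y hL
    simp only [List.length_append, List.length_cons, List.length_nil, zero_add]
    by_cases h : L.length + (1 + 1) + R.length + V.length + W.length = M
    · rw [if_pos h, if_pos h]
      obtain ⟨Q₁, Q₂, Q₃, Q₄, l₁, l₂, l₃, l₄, e⟩ := chain_alt sq eng c L R x y hL
      have e1 := IH0 Q₁ V W (by omega)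
      have e2 := IH0 Q₂ V W (by omega)
      have e3 := IH0 Q₃ V W (by omega)
      have e4 := IH0 Q₄ V W (by omega)
      have e' := congrArg (fun t => t * lw c V * lw c W) e
      simp only [add_mul, neg_mul, e1, e2, e3, e4, add_zero, neg_zero] at e'
      rw [eq_neg_iff_add_eq_zero]
      exact e'
    · rw [if_neg h, if_neg h, neg_zero]
  · -- galt
    intro L R V W x y z hL
    simp only [List.length_append, List.length_cons, List.length_nil, zero_add]
    by_cases h : L.length + (1 + 1) + R.length + V.length + W.length + 1 = M
    · rw [if_pos h, if_pos h]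
      obtain ⟨Q₁, Q₂, Q₃, Q₄, l₁, l₂, l₃, l₄, e⟩ := chain_alt sq eng c L R x y hL
      have e1 := IH1 Q₁ V W z (by omega)
      have e2 := IH1 Q₂ V W z (by omega)
      have e3 := IH1 Q₃ V W z (by omega)
      have e4 := IH1 Q₄ V W z (by omega)
      have e' := congrArg (fun t => t * lw c V * z * lw c W) e
      simp only [add_mul, neg_mul, e1, e2, e3, e4, add_zero, neg_zero] at e'
      rw [eq_neg_iff_add_eq_zero]
      exact e'
    · rw [if_neg h, if_neg h, neg_zero]
  · -- falt3
    intro U V L R x y hL
    simp only [List.length_append, List.length_cons, List.length_nil, zero_add]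
    by_cases h : U.length + V.length + (L.length + (1 + 1) + R.length) = M
    · rw [if_pos h, if_pos h]
      by_cases hL' : L = []
      · have hR : R = [] := by
          rcases hL with h' | h'
          · exact absurd hL' h'
          · exact h'
        subst hL' hR
        simp only [List.length_nil] at h
        have := lev_T3c sq eng c M IH U V [] [] x y (by simp; omega)
        simpa using this
      · obtain ⟨Q₁, Q₂, Q₃, Q₄, l₁, l₂, l₃, l₄, e⟩ := chain_alt sq eng c L R x y hL'
        have e1 := IH0 U V Q₁ (by omega)
        have e2 := IH0 U V Q₂ (by omega)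
        have e3 := IH0 U V Q₃ (by omega)
        have e4 := IH0 U V Q₄ (by omega)
        have e' := congrArg (fun t => (lw c U * lw c V) * t) e
        simp only [mul_add, mul_neg, e1, e2, e3, e4, add_zero, neg_zero] at e'
        rw [eq_neg_iff_add_eq_zero]
        exact e'
    · rw [if_neg h, if_neg h, neg_zero]
  · -- galt3
    intro U V L R x y z hL
    simp only [List.length_append, List.length_cons, List.length_nil, zero_add]
    by_cases h : U.length + V.length + (L.length + (1 + 1) + R.length) + 1 = M
    · rw [if_pos h, if_pos h]
      by_cases hL' : L = []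
      · have hR : R = [] := by
          rcases hL with h' | h'
          · exact absurd hL' h'
          · exact h'
        subst hL' hR
        simp only [List.length_nil] at h
        have := lev_T3c sq eng c M IH U V [z] [] x y (by simp; omega)
        simpa using this
      · obtain ⟨Q₁, Q₂, Q₃, Q₄, l₁, l₂, l₃, l₄, e⟩ := chain_alt sq eng c L R x y hL'
        have e1 := IH1 U V Q₁ z (by omega)
        have e2 := IH1 U V Q₂ z (by omega)
        have e3 := IH1 U V Q₃ z (by omega)
        have e4 := IH1 U V Q₄ z (by omega)
        have e' := congrArg (fun t => ((lw c U * lw c V) * z) * t) e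
        simp only [mul_add, mul_neg, e1, e2, e3, e4, add_zero, neg_zero] at e'
        rw [eq_neg_iff_add_eq_zero]
        exact e'
    · rw [if_neg h, if_neg h, neg_zero]
  · -- r3
    intro U V W z
    dsimp only [Afun]
    simp only [List.length_append, List.length_cons, List.length_nil, zero_add]
    by_cases h : U.length + V.length + W.length + 1 = M
    · rw [if_pos (by omega), if_pos (by omega), if_pos (by omega), if_pos (by omega)]
      have e := eng_lin eng (lw c U) (lw c V) (lw c W) z
      have e1 := IH0 U V W (by omega)
      have e2 := IH0 U W V (by omega)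
      rw [e1, e2] at e
      simp only [lw_snoc, zero_mul] at e ⊢
      linear_combination (norm := abel) e
    · rw [if_neg (by omega), if_neg (by omega), if_neg (by omega), if_neg (by omega)]
      simp
  · -- b1
    intro U V W z z'
    dsimp only [Afun]
    simp only [List.length_append, List.length_cons, List.length_nil, zero_add]
    by_cases h : U.length + V.length + W.length + 2 = M
    · rw [if_pos (by omega), if_pos (by omega), if_pos (by omega), if_pos (by omega)]
      have e := congrArg (fun t => t * lw c W) (eng_lin eng z (lw c U) (lw c V) z')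
      have e1 := IH0 (U ++ [z * z']) V W (by simp; omega)
      have e2 := IH0 (V ++ [z * z']) U W (by simp; omega)
      rw [lw_snoc] at e1 e2
      simp only [add_mul, zero_mul] at e
      rw [anti_of_sq sq z (lw c U), anti_of_sq sq z (lw c V), anti_of_sq sq (z * z') (lw c U),
        anti_of_sq sq (z * z') (lw c V)] at e
      simp only [neg_mul, e1, e2] at e
      simp only [lw_snoc]
      linear_combination (norm := abel) -e
    · rw [if_neg (by omega), if_neg (by omega), if_neg (by omega), if_neg (by omega)]
      simp
  · -- a1
    intro U V W z z'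
    dsimp only [Afun]
    simp only [List.length_append, List.length_cons, List.length_nil, zero_add]
    by_cases h : U.length + V.length + W.length + 2 = M
    · rw [if_pos (by omega), if_pos (by omega), if_pos (by omega), if_pos (by omega)]
      have e := congrArg (fun t => t * lw c W) (eng_lin eng (lw c U) (lw c V) z z')
      have e1 := lev_T3b eng c M IH U V [] W z z' (by simp; omega)
      simp only [lw_nil] at e1
      simp only [add_mul, zero_mul] at e
      rw [e1] at e
      simp only [lw_snoc]
      linear_combination (norm := abel) e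
    · rw [if_neg (by omega), if_neg (by omega), if_neg (by omega), if_neg (by omega)]
      simp
  · -- i2
    intro U V W a b x
    dsimp only [Afun]
    simp only [List.length_append, List.length_cons, List.length_nil, zero_add]
    by_cases h : U.length + V.length + W.length + 3 = M
    · rw [if_pos (by omega), if_pos (by omega), if_pos (by omega), if_pos (by omega),
        if_pos (by omega), if_pos (by omega)]
      have e := congrArg (fun t => t * x * lw c W) (eng_lin eng a (lw c U) (lw c V) b)
      have e1 := IH1 (U ++ [a * b]) V W x (by simp; omega)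
      have e2 := IH1 (V ++ [a * b]) U W x (by simp; omega)
      have e3 := lev_T3a sq eng c M IH (U ++ [a]) V [] W b x (by simp; omega)
      have e4 := lev_T3a sq eng c M IH (V ++ [a]) U [] W b x (by simp; omega)
      have e5 : lw c (W ++ [b, x]) = lw c W * b * x := by simp [lw_append]
      have e6 : lw c (U ++ [a, b]) = lw c U * a * b := by simp [lw_append]
      have e7 : lw c (V ++ [a, b]) = lw c V * a * b := by simp [lw_append]
      have e8 : (lw c V * lw c U) = -(lw c U * lw c V) := anti_of_sq sq _ _
      rw [lw_snoc] at e1 e2
      simp only [lw_nil, lw_snoc] at e3 e4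
      simp only [add_mul, zero_mul] at e
      rw [anti_of_sq sq a (lw c U), anti_of_sq sq a (lw c V), anti_of_sq sq (a * b) (lw c U),
        anti_of_sq sq (a * b) (lw c V)] at e
      simp only [neg_mul, e1, e2, e3, e4] at e
      rw [e5, e6, e7, e8]
      simp only [lw_snoc, neg_mul]
      linear_combination (norm := abel) -e
    · rw [if_neg (by omega), if_neg (by omega), if_neg (by omega), if_neg (by omega),
        if_neg (by omega), if_neg (by omega)]
      simp
  · -- fsmall
    intro U V W h
    rw [small_zero sq eng h2 c sand thick U V h, zero_mul, ite_self]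
  · -- gsmall
    intro U V W z h
    rw [small_zero sq eng h2 c sand thick U V h, zero_mul, zero_mul, ite_self]

/-- MODULE 1b: moving pairs of letters (the relation `(P z z') w = P (w z z')` at level `M`). -/
theorem T_of_fg (sq : ∀ x : A, x * x = 0) (eng : ∀ x y : A, ((x * y) * y) * y = 0)
    (_h2 : ∀ a : A, 2 • a = 0 → a = 0)
    (c : A) (M : ℕ)
    (IH : ∀ U V P W : List A, U.length + V.length + P.length + W.length < M →
      (lw (lw c U * lw c V) P) * lw c W = 0)
    (hf : ∀ U V W : List A, U.length + V.length + W.length = M →
      (lw c U * lw c V) * lw c W = 0)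
    (hg : ∀ (U V W : List A) (z : A), U.length + V.length + W.length + 1 = M →
      ((lw c U * lw c V) * z) * lw c W = 0) :
    ∀ U V P W : List A, U.length + V.length + P.length + W.length = M →
      (lw (lw c U * lw c V) P) * lw c W = 0 := by
  have key : ∀ n : ℕ, ∀ U V P W : List A, P.length = n →
      U.length + V.length + P.length + W.length = M →
      (lw (lw c U * lw c V) P) * lw c W = 0 := by
    intro n
    induction n using Nat.strong_induction_on with
    | _ n ih =>
      intro U V P W hn h
      rcases List.eq_nil_or_concat P with rfl | ⟨P', y, rfl⟩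
      · simpa using hf U V W (by simpa using h)
      · rcases List.eq_nil_or_concat P' with rfl | ⟨P'', x, rfl⟩
        · simpa using hg U V W y (by simp at h; omega)
        · simp only [List.concat_eq_append, List.length_append, List.length_cons,
            List.length_nil] at h hn
          have e := lev_T3a sq eng c M IH U V P'' W x y (by omega)
          have e' := ih P''.length (by omega) U V P'' (W ++ [x, y]) rfl
            (by simp only [List.length_append, List.length_cons, List.length_nil]; omega)
          simp only [List.concat_eq_append, lw_snoc]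
          rw [e]
          have e5 : lw c (W ++ [x, y]) = lw c W * x * y := by simp [lw_append]
          rw [← e5]
          exact e'
  intro U V P W h
  exact key _ U V P W rfl h

end

end Eng
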